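import Pool.Agent.V11159.CR.Main

open Finset

namespace Pool.Agent.V11159.CR

/-- the algebraic step -/
lemma alg {R : Type*} [CommRing R] {X D C u u' Y : R} {J T : ℕ}
    (h : X * C * (D * u + X * Y) = 0) (hu : u * u' = 1) (hX : X ^ T = 0) (hJ : 0 < J)
    (hD : D ^ (J + 1) = D) : X * C * D = 0 := by
  set W := X * C * D with hW
  set Z := -(X * Y * u') with hZ
  have h1 : W * D = Z * W := by
    have e1 : W * D = W * D * (u * u') := by rw [hu, mul_one]
    have e2 : W * D * (u * u') = (X * C * (D * u + X * Y)) * (D * u') - X * C * X * Y * D * u' := by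
      rw [hW]; ring
    rw [e1, e2, h, hZ, hW]; ring
  have h2 : ∀ j, W * D ^ j = Z ^ j * W := by
    intro j
    induction j with
    | zero => simp
    | succ j ih => rw [pow_succ, ← mul_assoc, ih, mul_assoc, h1, pow_succ]; ring
  have h3 : W = Z ^ J * W := by
    rw [← h2 J]
    conv_lhs => rw [hW, ← hD]
    rw [hW]; ring
  have h4 : ∀ L, W = (Z ^ J) ^ L * W := by
    intro L
    induction L with
    | zero => simp
    | succ L ih => rw [pow_succ, mul_assoc, ← h3]; exact ih
  have h5 : (Z ^ J) ^ T = 0 := by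
    rw [← pow_mul, mul_comm J T, pow_mul]
    have : Z ^ T = 0 := by
      rw [hZ, neg_pow, mul_pow, mul_pow, hX]; ring
    rw [this, zero_pow hJ.ne']
  rw [h4 T, h5, zero_mul]

/-- the polynomial value of `A` -/
noncomputable def gs {R : Type*} [CommRing R] {ω : ℕ} (g : R) (A : Finset (ZMod ω)) : R :=
  ∑ a ∈ A, g ^ a.val

lemma dvd_pow_sub {R : Type*} [CommRing R] {g : R} {n : ℕ} (a b : ℕ) (h : a % n = b % n) :
    g ^ n - 1 ∣ g ^ a - g ^ b := by
  have h1 : ∀ a, g ^ n - 1 ∣ g ^ a - g ^ (a % n) := by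
    intro a
    conv_rhs => rw [← Nat.mod_add_div a n, Nat.add_mul_mod_self_left, Nat.mod_mod, pow_add, pow_mul]
    have : g ^ (a % n) * (g ^ n) ^ (a / n) - g ^ (a % n) =
        g ^ (a % n) * ((g ^ n) ^ (a / n) - 1) := by ring
    rw [this]
    have h2 := sub_dvd_pow_sub_pow (g ^ n) 1 (a / n)
    rw [one_pow] at h2
    exact h2.mul_left _
  have h2 := dvd_sub (h1 a) (h1 b)
  rw [h] at h2
  have e : g ^ a - g ^ (b % n) - (g ^ b - g ^ (b % n)) = g ^ a - g ^ b := by ring
  rwa [e] at h2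

/-- the product of a complete residue system with `g ^ k - 1` -/
lemma complete_dvd {R : Type*} [CommRing R] {ω : ℕ} {g : R} {n : ℕ} (hn0 : 0 < n)
    (B : Finset (ZMod ω)) (hc : B.card = n)
    (hB : ∀ a ∈ B, ∀ b ∈ B, ((a.val : ℕ) : ZMod n) = ((b.val : ℕ) : ZMod n) → a = b) (k : ℕ) :
    g ^ n - 1 ∣ (g ^ k - 1) * gs g B := by
  have h1 : g ^ n - 1 ∣ gs g B - ∑ i ∈ range n, g ^ i := by
    have e : ∑ i ∈ range n, g ^ i = ∑ b ∈ B, g ^ (b.val % n) := by
      symm
      refine sum_bij (fun b _ => b.val % n) (fun b _ => mem_range.2 (Nat.mod_lt _ hn0)) ?_ ?_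
        (fun _ _ => rfl)
      · intro a ha b hb hab
        exact hB a ha b hb ((ZMod.natCast_eq_natCast_iff' _ _ _).2 hab)
      · have hinj : Set.InjOn (fun b : ZMod ω => b.val % n) (B : Set (ZMod ω)) := by
          intro a ha b hb hab
          exact hB a ha b hb ((ZMod.natCast_eq_natCast_iff' _ _ _).2 hab)
        have : B.image (fun b : ZMod ω => b.val % n) = range n := by
          apply eq_of_subset_of_card_le
          · intro i hi
            obtain ⟨b, _, rfl⟩ := mem_image.1 hi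
            exact mem_range.2 (Nat.mod_lt _ hn0)
          · rw [card_range, card_image_of_injOn hinj, hc]
        intro i hi
        rw [← this] at hi
        obtain ⟨b, hb, e⟩ := mem_image.1 hi
        exact ⟨b, hb, e⟩
    rw [e, gs, ← sum_sub_distrib]
    exact dvd_sum fun b _ => dvd_pow_sub _ _ (Nat.mod_mod _ _).symm
  have h2 : g ^ n - 1 ∣ (g ^ k - 1) * ∑ i ∈ range n, g ^ i := by
    have h3 := sub_dvd_pow_sub_pow g 1 k
    rw [one_pow] at h3
    obtain ⟨t, ht⟩ := h3
    refine ⟨t, ?_⟩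
    rw [ht, ← geom_sum_mul g n]; ring
  have h3 := dvd_add (h1.mul_left (g ^ k - 1)) h2
  have e : (g ^ k - 1) * (gs g B - ∑ i ∈ range n, g ^ i) + (g ^ k - 1) * ∑ i ∈ range n, g ^ i =
      (g ^ k - 1) * gs g B := by ring
  rwa [e] at h3

end Pool.Agent.V11159.CR
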