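import Pool.Agent.V11159.CR.Hit2

open Finset

namespace Pool.Agent.V11159.CR

open Pool.Agent.V11159.TJ (Til Per til_mult)

variable {ω : ℕ}

lemma sum_cnt [NeZero ω] {n : ℕ} (hnω : n ∣ ω) {A C : Finset (ZMod ω)} (h : Tl A C)
    (z : ZMod n) : ∑ a ∈ A, cnt n C (z - ((a.val : ℕ) : ZMod n)) =
      cnt n (univ : Finset (ZMod ω)) z := by
  have h1 : ∀ a ∈ A, cnt n C (z - ((a.val : ℕ) : ZMod n)) =
      ∑ c ∈ C, if (((a + c : ZMod ω).val : ℕ) : ZMod n) = z then 1 else 0 := by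
    intro a _
    rw [cnt, card_filter]
    refine sum_congr rfl fun c _ => ?_
    have e : (((a + c : ZMod ω).val : ℕ) : ZMod n) = ((a.val : ℕ) : ZMod n) + ((c.val : ℕ) : ZMod n) := by
      rw [← Nat.cast_add, ZMod.natCast_eq_natCast_iff', ZMod.val_add, Nat.mod_mod_of_dvd _ hnω]
    rw [e]
    have e2 : ((c.val : ℕ) : ZMod n) = z - ((a.val : ℕ) : ZMod n) ↔
        ((a.val : ℕ) : ZMod n) + ((c.val : ℕ) : ZMod n) = z := by
      constructor
      · intro e; rw [e]; ring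
      · intro e; rw [← e]; ring
    simp only [e2]
  rw [sum_congr rfl h1, ← sum_product', cnt, card_filter]
  have hb := tl_bij h
  refine sum_bij (fun p _ => p.1 + p.2) (fun _ _ => mem_univ _) ?_ ?_ (fun _ _ => rfl)
  · intro a ha b hb' e
    exact hb.2.1 (mem_coe.2 ha) (mem_coe.2 hb') e
  · intro g _
    obtain ⟨p, hp, e⟩ := hb.2.2 (Set.mem_univ g)
    exact ⟨p, mem_coe.1 hp, e⟩

lemma sum_cnt_complete {n : ℕ} [NeZero n] {B C : Finset (ZMod ω)} (hc : B.card = n)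
    (hB : ∀ a ∈ B, ∀ b ∈ B, ((a.val : ℕ) : ZMod n) = ((b.val : ℕ) : ZMod n) → a = b)
    (z : ZMod n) : ∑ b ∈ B, cnt n C (z - ((b.val : ℕ) : ZMod n)) = C.card := by
  rw [← cnt_sum (N := n) C]
  have hinj : Set.InjOn (fun b : ZMod ω => z - ((b.val : ℕ) : ZMod n)) (B : Set (ZMod ω)) := by
    intro a ha b hb hab
    exact hB a ha b hb (sub_right_injective hab)
  have himg : B.image (fun b : ZMod ω => z - ((b.val : ℕ) : ZMod n)) = univ := by
    refine (Finset.card_eq_iff_eq_univ _).1 ?_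
    rw [card_image_of_injOn hinj, hc, ZMod.card]
  rw [← himg, sum_image (fun a ha b hb hab => hinj ha hb hab)]

theorem fin [NeZero ω] {n' : ℕ} (hn' : 1 < n') {A B C : Finset (ZMod ω)} (h : Tl A C)
    (hn : A.card = 2 * n') (hodd : ¬ 2 ∣ n') (hc : B.card = 2 * n')
    (hB : ∀ a ∈ B, ∀ b ∈ B, ((a.val : ℕ) : ZMod (2 * n')) = ((b.val : ℕ) : ZMod (2 * n')) → a = b)
    {a0 b0 : ZMod ω} (ha0 : A \ B = {a0}) (hb0 : B \ A = {b0})
    (hab : a0.val % (2 * n') = (b0.val + n') % (2 * n'))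
    (hpr : ∀ r : ℕ, r.Prime → r ∣ ω → r ∣ 2 * n') : False := by
  haveI : NeZero (2 * n') := ⟨by omega⟩
  have hcard := tl_card h
  have hnω : 2 * n' ∣ ω := ⟨C.card, by rw [hn] at hcard; exact hcard.symm⟩
  have habz : ((a0.val : ℕ) : ZMod (2 * n')) = ((b0.val : ℕ) : ZMod (2 * n')) + (n' : ZMod (2 * n')) := by
    rw [← Nat.cast_add, ZMod.natCast_eq_natCast_iff']; exact hab
  have hCC : cnt (2 * n') (univ : Finset (ZMod ω)) = fun _ => C.card := by
    funext z
    rw [cnt_complete (NeZero.pos ω) hnω univ (by rw [card_univ, ZMod.card])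
      (fun a _ b _ e => by
        rw [ZMod.natCast_zmod_val, ZMod.natCast_zmod_val] at e; exact e) z]
    rw [hn] at hcard
    exact Nat.div_eq_of_eq_mul_right (by omega) hcard.symm
  have hper : ∀ z : ZMod (2 * n'), cnt (2 * n') C (z - ((a0.val : ℕ) : ZMod (2 * n'))) =
      cnt (2 * n') C (z - ((b0.val : ℕ) : ZMod (2 * n'))) := by
    intro z
    have h1 := sum_cnt hnω h z
    have h2 := sum_cnt_complete (C := C) hc hB z
    rw [hCC] at h1
    rw [← sum_inter_add_sum_sdiff A B, ha0, sum_singleton] at h1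
    rw [← sum_inter_add_sum_sdiff B A, hb0, sum_singleton, inter_comm] at h2
    simp only at h1
    omega
  have hall : ∀ k : ℕ, ∃ c ∈ C, ((c.val : ℕ) : ZMod (2 * n')) = k := by
    intro k
    obtain ⟨c, hcC, hck⟩ := hit hn' h hn hodd hc hB ha0 hb0 hab k
    have h1 : c.val % (2 * n') = k % (2 * n') ∨ c.val % (2 * n') = (k + n') % (2 * n') := by
      have e3 : c.val ≡ k [MOD n'] := hck
      rw [Nat.modEq_iff_dvd] at e3
      obtain ⟨s, hs⟩ := e3
      rcases Int.even_or_odd s with ⟨t, ht⟩ | ⟨t, ht⟩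
      · left
        have : c.val ≡ k [MOD 2 * n'] := by
          rw [Nat.modEq_iff_dvd]
          exact ⟨t, by rw [hs, ht]; push_cast; ring⟩
        exact this
      · right
        have : c.val ≡ k + n' [MOD 2 * n'] := by
          rw [Nat.modEq_iff_dvd]
          refine ⟨t + 1, ?_⟩
          push_cast
          rw [ht] at hs
          linear_combination hs
        exact this
    rcases h1 with h1 | h1
    · exact ⟨c, hcC, (ZMod.natCast_eq_natCast_iff' _ _ _).2 h1⟩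
    · have h2 : cnt (2 * n') C ((k : ZMod (2 * n')) + n') ≠ 0 := by
        rw [cnt]
        refine (card_pos.2 ⟨c, mem_filter.2 ⟨hcC, ?_⟩⟩).ne'
        rw [← Nat.cast_add, ZMod.natCast_eq_natCast_iff']; exact h1
      have h3 := hper ((k : ZMod (2 * n')) + n' + ((b0.val : ℕ) : ZMod (2 * n')))
      have e1 : (k : ZMod (2 * n')) + n' + ((b0.val : ℕ) : ZMod (2 * n')) -
          ((a0.val : ℕ) : ZMod (2 * n')) = k := by rw [habz]; ring
      have e2 : (k : ZMod (2 * n')) + n' + ((b0.val : ℕ) : ZMod (2 * n')) -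
          ((b0.val : ℕ) : ZMod (2 * n')) = k + n' := by ring
      rw [e1, e2] at h3
      rw [← h3, cnt] at h2
      obtain ⟨c', hc'⟩ := card_pos.1 (Nat.pos_of_ne_zero h2)
      exact ⟨c', (mem_filter.1 hc').1, (mem_filter.1 hc').2⟩
  -- two elements of `A` and two elements of `C` whose differences are `1`
  have hAz : ∀ z : ZMod (2 * n'), z ≠ ((b0.val : ℕ) : ZMod (2 * n')) →
      ∃ a ∈ A, ((a.val : ℕ) : ZMod (2 * n')) = z := by
    intro z hz
    have h1 := cnt_rel (N := 2 * n') A B z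
    rw [cnt_complete (by omega) dvd_rfl B hc hB, hb0] at h1
    have h2 : cnt (2 * n') {b0} z = 0 := by
      rw [cnt, card_eq_zero, filter_eq_empty_iff]
      intro x hx
      rw [mem_singleton.1 hx]; exact fun e => hz e.symm
    rw [h2, Nat.div_self (by omega)] at h1
    have h3 : 0 < cnt (2 * n') A z := by omega
    obtain ⟨a, ha⟩ := card_pos.1 h3
    exact ⟨a, (mem_filter.1 ha).1, (mem_filter.1 ha).2⟩
  haveI : Fact (1 < 2 * n') := ⟨by omega⟩
  have h10 : (1 : ZMod (2 * n')) ≠ 0 := one_ne_zero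
  have h20 : (2 : ZMod (2 * n')) ≠ 0 := by
    have : ((2 : ℕ) : ZMod (2 * n')) ≠ 0 := by
      rw [Ne, ZMod.natCast_eq_zero_iff]
      intro hd
      have := Nat.le_of_dvd (by norm_num) hd
      omega
    exact_mod_cast this
  obtain ⟨a1, ha1, hz1⟩ := hAz (((b0.val : ℕ) : ZMod (2 * n')) + 1) (by simp)
  obtain ⟨a2, ha2, hz2⟩ := hAz (((b0.val : ℕ) : ZMod (2 * n')) + 2) (by simpa using h20)
  obtain ⟨c1, hc1, hy1⟩ := hall 0
  obtain ⟨c2, hc2, hy2⟩ := hall 1
  have hω2 : 2 ≤ ω := le_trans (by omega) (Nat.le_of_dvd (NeZero.pos ω) hnω)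
  have hunit : ∀ d : ℤ, ((d : ℤ) : ZMod (2 * n')) = 1 → IsUnit (d : ZMod ω) := by
    intro d hd
    rw [ZMod.coe_int_isUnit_iff_isCoprime, Int.isCoprime_iff_gcd_eq_one]
    by_contra hg
    obtain ⟨r, hr, hrd⟩ := Nat.exists_prime_and_dvd hg
    have e1 : (r : ℤ) ∣ (ω : ℤ) := (Int.natCast_dvd_natCast.2 hrd).trans (Int.gcd_dvd_left ..)
    have e2 : (r : ℤ) ∣ d := (Int.natCast_dvd_natCast.2 hrd).trans (Int.gcd_dvd_right ..)
    have e3 : (r : ℤ) ∣ ((2 * n' : ℕ) : ℤ) :=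
      Int.natCast_dvd_natCast.2 (hpr r hr (Int.natCast_dvd_natCast.1 e1))
    have e4 : ((2 * n' : ℕ) : ℤ) ∣ d - 1 := by
      rw [← ZMod.intCast_zmod_eq_zero_iff_dvd]
      push_cast
      rw [hd]; ring
    have e5 : (r : ℤ) ∣ 1 := by
      have := dvd_sub e2 (e3.trans e4)
      rwa [sub_sub_cancel] at this
    exact hr.one_lt.ne' (Nat.dvd_one.1 (by exact_mod_cast e5))
  obtain ⟨u, hu⟩ := hunit ((a2.val : ℤ) - a1.val) (by
    push_cast
    rw [hz2, hz1]; ring)
  obtain ⟨w, hw⟩ := hunit ((c2.val : ℤ) - c1.val) (by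
    push_cast
    rw [hy2, hy1]; push_cast; ring)
  set k : ℕ := ((w * u⁻¹ : (ZMod ω)ˣ) : ZMod ω).val with hk
  have hkc : Nat.Coprime k ω := ZMod.val_coe_unit_coprime _
  have hk0 : 0 < k := by
    rcases Nat.eq_zero_or_pos k with h0 | h0
    · rw [h0] at hkc; simp at hkc; omega
    · exact h0
  have hkd : ((k * ((a2.val : ℤ) - a1.val) : ℤ) : ZMod ω) =
      (((c2.val : ℤ) - c1.val : ℤ) : ZMod ω) := by
    rw [Int.cast_mul, ← hu, ← hw, hk]
    push_cast
    rw [ZMod.natCast_zmod_val, mul_assoc, ← Units.val_mul, inv_mul_cancel, Units.val_one, mul_one]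
  set P : Set ℤ := {z | (z : ZMod ω) ∈ C} with hP
  set At : Finset ℤ := A.image fun a => (a.val : ℤ) with hAt
  have hPer : Per ω P := by
    intro z w h
    show (z : ZMod ω) ∈ C ↔ (w : ZMod ω) ∈ C
    have : (z : ZMod ω) = (w : ZMod ω) := by
      rw [← sub_eq_zero, ← Int.cast_sub, ZMod.intCast_zmod_eq_zero_iff_dvd]; exact h
    rw [this]
  have hTil : Til At P := by
    intro z
    obtain ⟨⟨a, b⟩, ⟨ha, hb, hab⟩, hu⟩ := h (z : ZMod ω)
    refine ⟨(a.val : ℤ), ⟨mem_image.2 ⟨a, ha, rfl⟩, ?_⟩, ?_⟩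
    · show ((z - (a.val : ℤ) : ℤ) : ZMod ω) ∈ C
      have : ((z - (a.val : ℤ) : ℤ) : ZMod ω) = b := by
        push_cast
        rw [ZMod.natCast_zmod_val, ← hab]
        simp
      rw [this]; exact hb
    · rintro y ⟨hy1, hy2⟩
      obtain ⟨a', ha', rfl⟩ := mem_image.1 hy1
      have h2 : ((z : ZMod ω) - a') ∈ C := by
        have : ((z - (a'.val : ℤ) : ℤ) : ZMod ω) = (z : ZMod ω) - a' := by
          push_cast
          rw [ZMod.natCast_zmod_val]
        rw [← this]; exact hy2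
      have h3 := hu (a', (z : ZMod ω) - a') ⟨ha', h2, by simp⟩
      have h4 : a' = a := congrArg Prod.fst h3
      rw [h4]
  have hAtc : At.card = A.card := by
    rw [hAt, card_image_of_injective]
    intro a b h
    have h' : (a.val : ℤ) = (b.val : ℤ) := h
    exact ZMod.val_injective _ (by exact_mod_cast h')
  have hT := til_mult hPer k hk0 At hTil (by
    rw [hAtc, hn]; exact Nat.Coprime.coprime_dvd_right hnω hkc)
  obtain ⟨x, -, huniq⟩ := hT (k * (a2.val : ℤ) + c1.val)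
  have q1 := huniq (k * (a2.val : ℤ)) ⟨mem_image_of_mem _ (mem_image.2 ⟨a2, ha2, rfl⟩), by
    show ((k * (a2.val : ℤ) + c1.val - k * (a2.val : ℤ) : ℤ) : ZMod ω) ∈ C
    have : (k : ℤ) * (a2.val : ℤ) + c1.val - k * (a2.val : ℤ) = c1.val := by ring
    rw [this]; push_cast; rw [ZMod.natCast_zmod_val]; exact hc1⟩
  have q2 := huniq (k * (a1.val : ℤ)) ⟨mem_image_of_mem _ (mem_image.2 ⟨a1, ha1, rfl⟩), by
    show ((k * (a2.val : ℤ) + c1.val - k * (a1.val : ℤ) : ℤ) : ZMod ω) ∈ C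
    have : (k : ℤ) * (a2.val : ℤ) + c1.val - k * (a1.val : ℤ) =
      k * ((a2.val : ℤ) - a1.val) + c1.val := by ring
    rw [this, Int.cast_add, hkd]; push_cast
    rw [ZMod.natCast_zmod_val, ZMod.natCast_zmod_val]
    simpa using hc2⟩
  have hk' : (k : ℤ) ≠ 0 := by exact_mod_cast hk0.ne'
  have q3 : (a2.val : ℤ) = a1.val := mul_left_cancel₀ hk' (q1.trans q2.symm)
  have q4 : a2.val = a1.val := by exact_mod_cast q3
  rw [q4, hz1] at hz2
  have q5 : (1 : ZMod (2 * n')) = 0 := by linear_combination (-1 : ZMod (2 * n')) * hz2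
  exact h10 q5

end Pool.Agent.V11159.CR
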