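import Pool.Agent.V11159.CR.Alg
import Pool.Agent.V11159.TJ.Ind

open Finset

namespace Pool.Agent.V11159.CR

section ring
variable {R : Type*} [CommRing R] [CharP R 2] {ω : ℕ} {g : R} {v n' : ℕ}

lemma step1 (hn'0 : 0 < n') (hodd : Nat.Coprime 2 n') (hg : g ^ (2 ^ v * n') = 1)
    {A B C : Finset (ZMod ω)} {a b : ℕ}
    (hAC : (g ^ 2 ^ v - 1) * gs g A * gs g C = 0)
    (hAB : gs g A = gs g B + (g ^ a - g ^ b))
    (hBd : g ^ (2 * n') - 1 ∣ (g ^ 2 ^ v - 1) * gs g B)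
    (hab : a % (2 * n') = (b + n') % (2 * n')) :
    (g ^ n' - 1) * gs g C * (g ^ 2 ^ v - 1) = 0 := by
  have h2 : (2 : R) = 0 := CharTwo.two_eq_zero
  have hX2 : g ^ (2 * n') - 1 = (g ^ n' - 1) * (g ^ n' - 1) := by
    rw [two_mul, pow_add]
    linear_combination (g ^ n' - 1) * h2
  have hXT : (g ^ n' - 1) ^ (2 ^ v) = 0 := by
    rw [sub_pow_char_pow, one_pow, ← pow_mul, mul_comm, hg, sub_self]
  have hk : 0 < n'.totient := Nat.totient_pos.2 hn'0
  have hk2 : 2 ≤ 2 ^ n'.totient := by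
    calc 2 = 2 ^ 1 := rfl
      _ ≤ _ := Nat.pow_le_pow_right (by norm_num) hk
  obtain ⟨t, ht⟩ : n' ∣ 2 ^ n'.totient - 1 :=
    (Nat.modEq_iff_dvd' (by omega)).1 (Nat.ModEq.pow_totient hodd).symm
  have hDJ : (g ^ 2 ^ v - 1) ^ ((2 ^ n'.totient - 1) + 1) = g ^ 2 ^ v - 1 := by
    have e : 2 ^ n'.totient - 1 + 1 = 2 ^ n'.totient := by omega
    rw [e, sub_pow_char_pow, one_pow]
    have e2 : 2 ^ n'.totient = n' * t + 1 := by omega
    rw [e2, ← pow_mul]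
    have e3 : 2 ^ v * (n' * t + 1) = (2 ^ v * n') * t + 2 ^ v := by ring
    rw [e3, pow_add, pow_mul, hg, one_pow, one_mul]
  obtain ⟨y1, hy1⟩ := hBd
  obtain ⟨y2, hy2⟩ := dvd_pow_sub (g := g) (n := 2 * n') a (b + n') hab
  rw [hX2] at hy1 hy2
  refine alg (u := g ^ b) (u' := g ^ ((2 ^ v * n' - 1) * b)) (Y := y1 + (g ^ 2 ^ v - 1) * y2)
    (J := 2 ^ n'.totient - 1) (T := 2 ^ v) ?_ ?_ hXT (by omega) hDJ
  · rw [← hAC, hAB]
    have e1 : g ^ a = g ^ b * g ^ n' + (g ^ n' - 1) * (g ^ n' - 1) * y2 := by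
      rw [← pow_add]; linear_combination hy2
    rw [e1]
    linear_combination (-(gs g C)) * hy1
  · rw [← pow_add]
    have hN : 0 < 2 ^ v * n' := by positivity
    obtain ⟨M, hM⟩ := Nat.exists_eq_succ_of_ne_zero hN.ne'
    have : b + (2 ^ v * n' - 1) * b = (2 ^ v * n') * b := by
      rw [hM, Nat.succ_sub_one, Nat.succ_mul]; ring
    rw [this, pow_mul, hg, one_pow]

lemma step3 (hn' : 1 < n') (hodd : Nat.Coprime (2 ^ v) n') (hg : g ^ (2 ^ v * n') = 1)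
    {A C : Finset (ZMod ω)} (hA : 2 ∣ A.card) (hX : (g ^ n' - 1) * gs g C = 0) :
    gs g A * gs g C * ∑ i ∈ range n', (g ^ 2 ^ v) ^ i = 0 := by
  set P := ∑ i ∈ range n', (g ^ 2 ^ v) ^ i with hP
  have hHP : (g ^ 2 ^ v - 1) * P = 0 := by
    rw [hP, mul_geom_sum, ← pow_mul, hg, sub_self]
  obtain ⟨m, -, hm⟩ := Nat.exists_mul_mod_eq_one_of_coprime hodd hn'
  have hgP : g ^ n' - 1 ∣ (g - 1) * P := by
    set t := 2 ^ v * m / n' with ht
    have e1 : 2 ^ v * m = n' * t + 1 := by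
      rw [ht]; have := Nat.div_add_mod (2 ^ v * m) n'; rw [hm] at this; exact this.symm
    have e2 : (g ^ (2 ^ v * m) - 1) * P = 0 := by
      rw [pow_mul]
      obtain ⟨y, hy⟩ := sub_dvd_pow_sub_pow (g ^ 2 ^ v) 1 m
      rw [one_pow] at hy
      rw [hy, mul_right_comm, hHP, zero_mul]
    obtain ⟨y, hy⟩ := sub_dvd_pow_sub_pow (g ^ n') 1 t
    rw [one_pow] at hy
    refine ⟨-(g * y * P), ?_⟩
    have e3 : g ^ (2 ^ v * m) = (g ^ n') ^ t * g := by rw [e1, pow_succ, pow_mul]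
    rw [e3] at e2
    linear_combination e2 - (g * P) * hy
  have hk : ∀ k : ℕ, g ^ n' - 1 ∣ (g ^ k - 1) * P := by
    intro k
    obtain ⟨y, hy⟩ := sub_dvd_pow_sub_pow g 1 k
    rw [one_pow] at hy
    rw [hy, mul_right_comm]
    exact hgP.mul_right _
  have hAP : g ^ n' - 1 ∣ gs g A * P := by
    have e : gs g A * P = ∑ a ∈ A, (g ^ a.val - 1) * P := by
      rw [← sum_mul, sum_sub_distrib, sum_const, nsmul_eq_mul, mul_one,
        (CharP.cast_eq_zero_iff R 2 _).2 hA, sub_zero, gs]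
    rw [e]
    exact dvd_sum fun a _ => hk _
  obtain ⟨y, hy⟩ := hAP
  have : gs g A * gs g C * P = (gs g A * P) * gs g C := by ring
  rw [this, hy]
  linear_combination y * hX

lemma gs_mul [NeZero ω] {A C : Finset (ZMod ω)} (h : Tl A C) (hg : g ^ ω = 1) :
    gs g A * gs g C = ∑ i ∈ range ω, g ^ i := by
  have hmod : ∀ k : ℕ, g ^ (k % ω) = g ^ k := by
    intro k
    conv_rhs => rw [← Nat.mod_add_div k ω, pow_add, pow_mul, hg, one_pow, mul_one]
  have hb := tl_bij h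
  have h1 : gs g A * gs g C = ∑ x : ZMod ω, g ^ x.val := by
    rw [gs, gs, sum_mul_sum, ← sum_product']
    refine sum_bij (fun p _ => p.1 + p.2) (fun _ _ => mem_univ _) ?_ ?_ ?_
    · intro a ha b hb' e
      exact hb.2.1 (mem_coe.2 ha) (mem_coe.2 hb') e
    · intro g _
      obtain ⟨p, hp, e⟩ := hb.2.2 (Set.mem_univ g)
      exact ⟨p, mem_coe.1 hp, e⟩
    · intro p _
      rw [ZMod.val_add, hmod, pow_add]
  rw [h1]
  refine sum_bij (fun x _ => x.val) (fun x _ => mem_range.2 (ZMod.val_lt x))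
    (fun a _ b _ e => ZMod.val_injective _ e) ?_ (fun _ _ => rfl)
  intro i hi
  exact ⟨(i : ZMod ω), mem_univ _, ZMod.val_cast_of_lt (mem_range.1 hi)⟩

end ring

end Pool.Agent.V11159.CR
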