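import Pool.Agent.V11159.CR.Hit

open Finset

namespace Pool.Agent.V11159.CR

open Pool.Agent.V11159.TJ (ev_ext)

theorem hit {ω : ℕ} [NeZero ω] {n' : ℕ} (hn' : 1 < n') {A B C : Finset (ZMod ω)} (h : Tl A C)
    (hn : A.card = 2 * n') (hodd : ¬ 2 ∣ n') (hc : B.card = 2 * n')
    (hB : ∀ a ∈ B, ∀ b ∈ B, ((a.val : ℕ) : ZMod (2 * n')) = ((b.val : ℕ) : ZMod (2 * n')) → a = b)
    {a0 b0 : ZMod ω} (ha0 : A \ B = {a0}) (hb0 : B \ A = {b0})
    (hab : a0.val % (2 * n') = (b0.val + n') % (2 * n')) (w0 : ℕ) :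
    ∃ c ∈ C, c.val % n' = w0 % n' := by
  by_contra hcon
  push Not at hcon
  have hn'0 : 0 < n' := by omega
  have hω0 : ω ≠ 0 := NeZero.ne ω
  have hcard := tl_card h
  have h2n : Nat.Coprime 2 n' := (Nat.Prime.coprime_iff_not_dvd Nat.prime_two).2 hodd
  set v := ω.factorization 2 with hv
  have hcop : Nat.Coprime (2 ^ v) n' := Nat.Coprime.pow_left _ h2n
  set N := 2 ^ v * n' with hN
  have hNω : N ∣ ω := by
    apply hcop.mul_dvd_of_dvd_of_dvd (Nat.ordProj_dvd ω 2)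
    exact ⟨2 * C.card, by have h' := hcard; rw [hn] at h'; linarith⟩
  have hN0 : 0 < N := by positivity
  haveI : NeZero N := ⟨hN0.ne'⟩
  haveI : Fact (Nat.Prime 2) := ⟨Nat.prime_two⟩
  set g : AddMonoidAlgebra (ZMod 2) (ZMod N) := AddMonoidAlgebra.single (1 : ZMod N) (1 : ZMod 2)
    with hgdef
  haveI : CharP (AddMonoidAlgebra (ZMod 2) (ZMod N)) 2 :=
    charP_of_injective_algebraMap (R := ZMod 2) (A := AddMonoidAlgebra (ZMod 2) (ZMod N))
      (FaithfulSMul.algebraMap_injective _ _) 2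
  have hpow : ∀ k : ℕ, g ^ k = AddMonoidAlgebra.single (k : ZMod N) (1 : ZMod 2) := by
    intro k
    rw [hgdef, AddMonoidAlgebra.single_pow]
    simp
  have hgN : g ^ N = 1 := by
    rw [hpow, ZMod.natCast_self]; rfl
  have hgω : g ^ ω = 1 := by
    obtain ⟨K, hK⟩ := hNω
    rw [hK, pow_mul, hgN, one_pow]
  have hevp : ∀ (z : ZMod N) (k : ℕ), Pool.Agent.V11159.TJ.ev 2 z (g ^ k) =
      if (k : ZMod N) = z then 1 else 0 := by
    intro z k
    rw [hpow, Pool.Agent.V11159.TJ.ev_single]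
  have hS := gs_mul h hgω
  have hgS : (g - 1) * ∑ i ∈ range ω, g ^ i = 0 := by rw [mul_geom_sum, hgω, sub_self]
  have hkS : ∀ k : ℕ, (g ^ k - 1) * ∑ i ∈ range ω, g ^ i = 0 := by
    intro k
    obtain ⟨y, hy⟩ := sub_dvd_pow_sub_pow g 1 k
    rw [one_pow] at hy
    rw [hy, mul_right_comm, hgS, zero_mul]
  have hAB : gs g A = gs g B + (g ^ a0.val - g ^ b0.val) := by
    have e1 : gs g A = ∑ a ∈ A ∩ B, g ^ a.val + g ^ a0.val := by
      rw [gs, ← sum_inter_add_sum_sdiff A B, ha0, sum_singleton]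
    have e2 : gs g B = ∑ a ∈ A ∩ B, g ^ a.val + g ^ b0.val := by
      rw [gs, ← sum_inter_add_sum_sdiff B A, hb0, sum_singleton, inter_comm]
    rw [e1, e2]; ring
  have hXCD := step1 (v := v) hn'0 h2n hgN (A := A) (B := B) (C := C) (a := a0.val) (b := b0.val)
    (by rw [mul_assoc, hS, hkS]) hAB (complete_dvd (by omega) B hc hB (2 ^ v)) hab
  have hXC : (g ^ n' - 1) * gs g C = 0 := by
    apply ev_ext
    intro z
    rw [map_zero]
    -- choose the exponent
    obtain ⟨m, -, hm⟩ := Nat.exists_mul_mod_eq_one_of_coprime hcop hn'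
    set i := m * (z.val + (n' - w0 % n')) with hi
    have hmod : (2 ^ v * i + w0) % n' = z.val % n' := by
      have h1 : (2 ^ v * i + w0) ≡ z.val [MOD n'] := by
        have e1 : 2 ^ v * i = (2 ^ v * m) * (z.val + (n' - w0 % n')) := by rw [hi]; ring
        have e2 : 2 ^ v * m ≡ 1 [MOD n'] := by
          show _ % _ = _ % _
          rw [hm, Nat.mod_eq_of_lt hn']
        have e3 : w0 ≡ w0 % n' [MOD n'] := (Nat.mod_modEq _ _).symm
        rw [e1]
        calc (2 ^ v * m) * (z.val + (n' - w0 % n')) + w0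
            ≡ 1 * (z.val + (n' - w0 % n')) + w0 % n' [MOD n'] :=
              (e2.mul_right _).add e3
          _ = z.val + n' := by
              have := (Nat.mod_lt w0 hn'0).le; omega
          _ ≡ z.val + 0 [MOD n'] := Nat.ModEq.add_left _ (by show _ % _ = _ % _; simp)
          _ = z.val := by ring
      exact h1
    have hEH : (g ^ n' - 1) * gs g C = (g ^ n' - 1) * gs g C * (g ^ 2 ^ v) ^ i := by
      obtain ⟨y, hy⟩ := sub_dvd_pow_sub_pow (g ^ 2 ^ v) 1 i
      rw [one_pow] at hy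
      linear_combination (-y) * hXCD - ((g ^ n' - 1) * gs g C) * hy
    rw [hEH]
    have e : (g ^ n' - 1) * gs g C * (g ^ 2 ^ v) ^ i =
        ∑ c ∈ C, (g ^ (c.val + n' + 2 ^ v * i) - g ^ (c.val + 2 ^ v * i)) := by
      rw [gs, mul_sum, sum_mul]
      refine sum_congr rfl fun c _ => ?_
      rw [pow_add, pow_add, pow_add, ← pow_mul]; ring
    rw [e, map_sum]
    refine sum_eq_zero fun c hcC => ?_
    have hne : ∀ k : ℕ, k % n' = c.val % n' →
        ((k + 2 ^ v * i : ℕ) : ZMod N) ≠ z := by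
      intro k hk hz
      have h1 : ((k + 2 ^ v * i : ℕ) : ZMod N) = ((z.val : ℕ) : ZMod N) := by
        rw [hz, ZMod.natCast_val]
        simp
      rw [ZMod.natCast_eq_natCast_iff] at h1
      have h2 : k + 2 ^ v * i ≡ z.val [MOD n'] := h1.of_dvd ⟨2 ^ v, by rw [hN]; ring⟩
      have h3 : k + 2 ^ v * i ≡ w0 + 2 ^ v * i [MOD n'] :=
        h2.trans (by rw [add_comm w0]; exact hmod.symm)
      have h4 : k ≡ w0 [MOD n'] := Nat.ModEq.add_right_cancel' _ h3
      exact hcon c hcC (hk.symm.trans h4)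
    rw [map_sub, hevp, hevp, if_neg (hne (c.val + n') (by simp)), if_neg (hne c.val rfl), sub_zero]
  have h3 := step3 (v := v) hn' hcop hgN (A := A) (C := C) (hn ▸ dvd_mul_right 2 n') hXC
  rw [hS] at h3
  have h4 : (∑ i ∈ range ω, g ^ i) * ∑ i ∈ range n', (g ^ 2 ^ v) ^ i =
      ∑ i ∈ range ω, g ^ i := by
    rw [mul_sum]
    have e : ∀ i ∈ range n', (∑ i ∈ range ω, g ^ i) * (g ^ 2 ^ v) ^ i = ∑ i ∈ range ω, g ^ i := by
      intro i _
      rw [← pow_mul]
      linear_combination hkS (2 ^ v * i)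
    rw [sum_congr rfl e, sum_const, card_range, nsmul_eq_mul]
    have : ((n' : ℕ) : AddMonoidAlgebra (ZMod 2) (ZMod N)) = 1 := by
      obtain ⟨k, hk⟩ := Nat.odd_iff.2 (Nat.two_dvd_ne_zero.1 hodd)
      have h2 : (2 : AddMonoidAlgebra (ZMod 2) (ZMod N)) = 0 := CharTwo.two_eq_zero
      rw [hk]; push_cast
      linear_combination (k : AddMonoidAlgebra (ZMod 2) (ZMod N)) * h2
    rw [this, one_mul]
  rw [h4] at h3
  have h5 : (∑ i ∈ range ω, g ^ (i + 1)) = 0 := by
    have := hgS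
    rw [sub_mul, one_mul, mul_sum, h3, sub_zero] at this
    rw [← this]
    exact sum_congr rfl fun i _ => pow_succ' g i
  have h6 := congrArg (Pool.Agent.V11159.TJ.ev 2 (0 : ZMod N)) h5
  rw [map_sum, map_zero] at h6
  simp only [hevp] at h6
  rw [← sum_filter, sum_const, nsmul_eq_mul, mul_one] at h6
  have h7 : ((range ω).filter fun i => ((i + 1 : ℕ) : ZMod N) = 0).card = ω / N := by
    rw [← Nat.card_multiples ω N]
    congr 1
    exact filter_congr fun i _ => ZMod.natCast_eq_zero_iff _ _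
  rw [h7, ZMod.natCast_eq_zero_iff] at h6
  obtain ⟨K, hK⟩ := h6
  have h8 : 2 ^ (v + 1) ∣ ω := by
    refine ⟨n' * K, ?_⟩
    have := Nat.div_mul_cancel hNω
    rw [hK] at this
    rw [← this, hN]; ring
  exact Nat.pow_succ_factorization_not_dvd hω0 Nat.prime_two h8

end Pool.Agent.V11159.CR
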