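import Pool.Agent.V11159.CR.T1

open Finset

namespace Pool.Agent.V11159.CR

variable {ω : ℕ}

lemma cnt_sum {N : ℕ} [NeZero N] (A : Finset (ZMod ω)) : ∑ x : ZMod N, cnt N A x = A.card :=
  (card_eq_sum_card_fiberwise (f := fun a : ZMod ω => ((a.val : ℕ) : ZMod N))
    (t := (univ : Finset (ZMod N))) (fun _ _ => mem_univ _)).symm

lemma cnt_split {N : ℕ} (A B : Finset (ZMod ω)) (x : ZMod N) :
    cnt N A x = cnt N (A \ B) x + cnt N (A ∩ B) x := by
  classical
  unfold cnt
  rw [← card_union_of_disjoint (disjoint_filter_filter (disjoint_sdiff_inter A B)),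
    ← filter_union, sdiff_union_inter]

lemma cnt_rel {N : ℕ} (A B : Finset (ZMod ω)) (x : ZMod N) :
    cnt N A x + cnt N (B \ A) x = cnt N B x + cnt N (A \ B) x := by
  have h1 := cnt_split A B x
  have h2 := cnt_split B A x
  rw [inter_comm B A] at h2
  omega

lemma const_of_shift {N : ℕ} [NeZero N] (A : Finset (ZMod ω))
    (h : ∀ x : ZMod N, cnt N A (x - 1) = cnt N A x) (x : ZMod N) : N * cnt N A x = A.card := by
  have h1 : ∀ k : ℕ, cnt N A (k : ZMod N) = cnt N A 0 := by
    intro k
    induction k with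
    | zero => simp
    | succ k ih =>
      rw [← ih, ← h]
      congr 1
      push_cast; ring
  have h2 : ∀ y : ZMod N, cnt N A y = cnt N A 0 := fun y => by
    have := h1 y.val
    rwa [ZMod.natCast_zmod_val] at this
  rw [← cnt_sum (N := N) A, sum_congr rfl (fun y _ => h2 y), h2 x, sum_const, card_univ, ZMod.card,
    smul_eq_mul]

/-- complete residue systems are equidistributed -/
lemma cnt_complete {n N : ℕ} [NeZero N] (hn0 : 0 < n) (hN : N ∣ n) (B : Finset (ZMod ω))
    (hc : B.card = n)
    (hB : ∀ a ∈ B, ∀ b ∈ B, ((a.val : ℕ) : ZMod n) = ((b.val : ℕ) : ZMod n) → a = b)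
    (x : ZMod N) : cnt N B x = n / N := by
  have hN0 : 0 < N := NeZero.pos N
  have hle : ∀ y : ZMod N, cnt N B y ≤ n / N := by
    intro y
    rw [← card_range (n / N), cnt]
    refine card_le_card_of_injOn (fun a => (a.val % n) / N) ?_ ?_
    · intro a _
      refine mem_coe.2 (mem_range.2 ?_)
      exact Nat.div_lt_div_of_lt_of_dvd hN (Nat.mod_lt _ hn0)
    · intro a ha b hb hab
      have ha' := mem_filter.1 (mem_coe.1 ha)
      have hb' := mem_filter.1 (mem_coe.1 hb)
      have h1 : ((a.val : ℕ) : ZMod N) = ((b.val : ℕ) : ZMod N) := ha'.2.trans hb'.2.symm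
      rw [ZMod.natCast_eq_natCast_iff'] at h1
      apply hB a ha'.1 b hb'.1
      rw [ZMod.natCast_eq_natCast_iff']
      have h2 : (a.val % n) % N = (b.val % n) % N := by
        rw [Nat.mod_mod_of_dvd _ hN, Nat.mod_mod_of_dvd _ hN, h1]
      have hab' : a.val % n / N = b.val % n / N := hab
      rw [← Nat.div_add_mod (a.val % n) N, ← Nat.div_add_mod (b.val % n) N, hab', h2]
  have hsum : ∑ y : ZMod N, cnt N B y = ∑ _y : ZMod N, n / N := by
    rw [cnt_sum, hc, sum_const, card_univ, ZMod.card, smul_eq_mul, Nat.mul_div_cancel' hN]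
  exact (sum_eq_sum_iff_of_le (fun y _ => hle y)).1 hsum x (mem_univ _)

theorem part1 [NeZero ω] {n : ℕ} {A B C : Finset (ZMod ω)} (h : Tl A C) (hn : A.card = n)
    (hc : B.card = n)
    (hB : ∀ a ∈ B, ∀ b ∈ B, ((a.val : ℕ) : ZMod n) = ((b.val : ℕ) : ZMod n) → a = b)
    {q : ℕ} (hq : q.Prime) (he : 2 * (n - (A ∩ B).card) < q ^ n.factorization q)
    (x : ZMod (q ^ n.factorization q)) :
    cnt (q ^ n.factorization q) A x = n / q ^ n.factorization q := by
  have hcard := tl_card h
  have hn0 : n ≠ 0 := fun e => by rw [hn, e, zero_mul] at hcard; exact NeZero.ne ω hcard.symm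
  have hN0 : 0 < q ^ n.factorization q := pow_pos hq.pos _
  haveI : NeZero (q ^ n.factorization q) := ⟨hN0.ne'⟩
  have hN : q ^ n.factorization q ∣ n := Nat.ordProj_dvd n q
  have hBx : ∀ y : ZMod (q ^ n.factorization q), cnt _ B y = n / q ^ n.factorization q :=
    cnt_complete (Nat.pos_of_ne_zero hn0) hN B hc hB
  have halt := alt h hq
  rw [hn] at halt
  rcases halt with hg | hb
  · have h1 := const_of_shift A hg x
    rw [hn] at h1
    exact (Nat.div_eq_of_eq_mul_right hN0 h1.symm).symm
  · exfalso
    have h1 : (A \ B).card = n - (A ∩ B).card := by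
      have := card_sdiff_add_card_inter A B
      omega
    have h2 : (B \ A).card = n - (A ∩ B).card := by
      have := card_sdiff_add_card_inter B A
      rw [inter_comm B A] at this
      omega
    have h3 : ∃ y : ZMod (q ^ n.factorization q), cnt _ (A \ B) y + cnt _ (B \ A) y = 0 := by
      by_contra hcon
      push Not at hcon
      have h4 : ∑ _y : ZMod (q ^ n.factorization q), 1 ≤
          ∑ y : ZMod (q ^ n.factorization q), (cnt _ (A \ B) y + cnt _ (B \ A) y) :=
        sum_le_sum fun y _ => Nat.one_le_iff_ne_zero.2 (hcon y)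
      rw [sum_add_distrib, cnt_sum, cnt_sum, h1, h2, sum_const, card_univ, ZMod.card, smul_eq_mul,
        mul_one] at h4
      omega
    obtain ⟨y, hy⟩ := h3
    have h5 := cnt_rel A B y
    rw [hBx y] at h5
    have h6 : cnt _ A y = n / q ^ n.factorization q := by omega
    exact Nat.not_dvd_ordCompl hq hn0 (h6 ▸ hb y)

theorem part2 [NeZero ω] {n : ℕ} {A B C : Finset (ZMod ω)} (h : Tl A C) (hn : A.card = n)
    (hc : B.card = n)
    (hB : ∀ a ∈ B, ∀ b ∈ B, ((a.val : ℕ) : ZMod n) = ((b.val : ℕ) : ZMod n) → a = b)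
    (he : n ≤ (A ∩ B).card + 1) (h4 : n % 4 ≠ 2) :
    ∀ a ∈ A, ∀ b ∈ A, ((a.val : ℕ) : ZMod n) = ((b.val : ℕ) : ZMod n) → a = b := by
  have hcard := tl_card h
  have hn0 : n ≠ 0 := fun e => by rw [hn, e, zero_mul] at hcard; exact NeZero.ne ω hcard.symm
  have hAB := card_sdiff_add_card_inter A B
  have hBA := card_sdiff_add_card_inter B A
  rw [inter_comm B A] at hBA
  by_cases h0 : (A \ B).card = 0
  · have h1 : A ⊆ B := sdiff_eq_empty_iff_subset.1 (card_eq_zero.1 h0)
    exact fun a ha b hb => hB a (h1 ha) b (h1 hb)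
  · have e1 : (A \ B).card = 1 := by omega
    have e2 : (B \ A).card = 1 := by omega
    obtain ⟨a0, ha0⟩ := card_eq_one.1 e1
    obtain ⟨b0, hb0⟩ := card_eq_one.1 e2
    have key : ((a0.val : ℕ) : ZMod n) = ((b0.val : ℕ) : ZMod n) := by
      have hd : n ∣ ((a0.val : ℤ) - b0.val).natAbs := by
        rw [Nat.dvd_iff_prime_pow_dvd_dvd]
        intro q k hq hk
        have hk' : k ≤ n.factorization q := (hq.pow_dvd_iff_le_factorization hn0).1 hk
        rcases Nat.eq_zero_or_pos k with hk0 | hk0
        · rw [hk0, pow_zero]; exact one_dvd _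
        refine (pow_dvd_pow q hk').trans ?_
        have hN0 : 0 < q ^ n.factorization q := pow_pos hq.pos _
        haveI : NeZero (q ^ n.factorization q) := ⟨hN0.ne'⟩
        have hN2 : 2 < q ^ n.factorization q := by
          have h2le : 2 ≤ q ^ n.factorization q := by
            calc 2 ≤ q := hq.two_le
              _ = q ^ 1 := (pow_one q).symm
              _ ≤ _ := Nat.pow_le_pow_right hq.pos (by omega)
          rcases h2le.lt_or_eq with h5 | h5
          · exact h5
          · exfalso
            have hnd := Nat.not_dvd_ordCompl hq hn0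
            have hmul := Nat.ordProj_mul_ordCompl_eq_self n q
            rw [← h5] at hnd hmul
            have hq2 : q = 2 := by
              have : q ∣ 2 := by
                rw [h5]; exact dvd_pow_self q (by omega)
              exact (Nat.prime_dvd_prime_iff_eq hq Nat.prime_two).1 this
            rw [hq2] at hnd
            apply h4
            omega
        have hA' := part1 h hn hc hB hq (by omega)
        have hB' := cnt_complete (Nat.pos_of_ne_zero hn0) (Nat.ordProj_dvd n q) B hc hB
        have h6 := cnt_rel A B ((a0.val : ℕ) : ZMod (q ^ n.factorization q))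
        rw [hA', hB', ha0, hb0] at h6
        have h7 : cnt (q ^ n.factorization q) {a0} ((a0.val : ℕ) : ZMod (q ^ n.factorization q)) =
            1 := by
          rw [cnt, filter_true_of_mem (by simp)]; rfl
        rw [h7] at h6
        have h8 : cnt (q ^ n.factorization q) {b0} ((a0.val : ℕ) : ZMod (q ^ n.factorization q)) =
            1 := by omega
        have h9 : ((b0.val : ℕ) : ZMod (q ^ n.factorization q)) = (a0.val : ℕ) := by
          by_contra hne
          rw [cnt, filter_false_of_mem (by simpa using hne)] at h8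
          simp at h8
        have h10 : ((((a0.val : ℤ) - b0.val : ℤ)) : ZMod (q ^ n.factorization q)) = 0 := by
          push_cast
          rw [h9]; ring
        rw [ZMod.intCast_zmod_eq_zero_iff_dvd] at h10
        exact Int.natCast_dvd.1 h10
      have h11 : (((a0.val : ℤ) - b0.val : ℤ) : ZMod n) = 0 := by
        rw [ZMod.intCast_zmod_eq_zero_iff_dvd]
        exact Int.natCast_dvd.2 hd
      push_cast at h11
      exact sub_eq_zero.1 h11
    have hb0B : b0 ∈ B ∧ b0 ∉ A := mem_sdiff.1 (by rw [hb0]; exact mem_singleton_self _)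
    have hcase : ∀ a ∈ A, a = a0 ∨ a ∈ B := by
      intro a ha
      by_cases hab : a ∈ B
      · exact Or.inr hab
      · left
        have : a ∈ A \ B := mem_sdiff.2 ⟨ha, hab⟩
        rw [ha0] at this
        exact mem_singleton.1 this
    intro a ha b hb hab
    rcases hcase a ha with h1 | h1 <;> rcases hcase b hb with h2 | h2
    · rw [h1, h2]
    · exfalso
      rw [h1, key] at hab
      have := hB b0 hb0B.1 b h2 hab
      exact hb0B.2 (this ▸ hb)
    · exfalso
      rw [h2, key] at hab
      have := hB a h1 b0 hb0B.1 hab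
      exact hb0B.2 (this ▸ ha)
    · exact hB a h1 b h2 hab

end Pool.Agent.V11159.CR
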