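import Pool.Agent.V11159.CR.Fin

open Finset

namespace Pool.Agent.V11159.CR

theorem part3 {ω : ℕ} [NeZero ω] {n : ℕ} {A B C : Finset (ZMod ω)} (h : Tl A C)
    (hn : A.card = n) (hc : B.card = n)
    (hB : ∀ a ∈ B, ∀ b ∈ B, ((a.val : ℕ) : ZMod n) = ((b.val : ℕ) : ZMod n) → a = b)
    (hn2 : n ≠ 2) (he : n ≤ (A ∩ B).card + 1)
    (hor : n % 4 ≠ 2 ∨ ∀ r : ℕ, r.Prime → r ∣ ω → r ∣ n) :
    ∀ a ∈ A, ∀ b ∈ A, ((a.val : ℕ) : ZMod n) = ((b.val : ℕ) : ZMod n) → a = b := by
  by_cases h4 : n % 4 ≠ 2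
  · exact part2 h hn hc hB he h4
  have hpr := hor.resolve_left h4
  push Not at h4
  obtain ⟨n', hn'⟩ : ∃ n', n = 2 * n' := ⟨n / 2, by omega⟩
  have hn'1 : 1 < n' := by omega
  have hodd : ¬ 2 ∣ n' := by omega
  have hn0 : n ≠ 0 := by omega
  have hAB := card_sdiff_add_card_inter A B
  have hBA := card_sdiff_add_card_inter B A
  rw [inter_comm B A] at hBA
  by_cases h0 : (A \ B).card = 0
  · have h1 : A ⊆ B := sdiff_eq_empty_iff_subset.1 (card_eq_zero.1 h0)
    exact fun a ha b hb => hB a (h1 ha) b (h1 hb)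
  have e1 : (A \ B).card = 1 := by omega
  have e2 : (B \ A).card = 1 := by omega
  obtain ⟨a0, ha0⟩ := card_eq_one.1 e1
  obtain ⟨b0, hb0⟩ := card_eq_one.1 e2
  have hd : n' ∣ ((a0.val : ℤ) - b0.val).natAbs := by
    rw [Nat.dvd_iff_prime_pow_dvd_dvd]
    intro q k hq hk
    rcases Nat.eq_zero_or_pos k with hk0 | hk0
    · rw [hk0, pow_zero]; exact one_dvd _
    have hkn : q ^ k ∣ n := hk.trans ⟨2, by rw [hn']; ring⟩
    have hk' : k ≤ n.factorization q := (hq.pow_dvd_iff_le_factorization hn0).1 hkn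
    have hq2 : q ≠ 2 := by
      rintro rfl
      exact hodd ((dvd_pow_self 2 hk0.ne').trans hk)
    have hq3 : 3 ≤ q := by
      have := hq.two_le; omega
    refine (pow_dvd_pow q hk').trans ?_
    have hN0 : 0 < q ^ n.factorization q := pow_pos hq.pos _
    haveI : NeZero (q ^ n.factorization q) := ⟨hN0.ne'⟩
    have hN2 : 2 < q ^ n.factorization q := by
      calc 2 < q := hq3
        _ = q ^ 1 := (pow_one q).symm
        _ ≤ _ := Nat.pow_le_pow_right hq.pos (by omega)
    have hA' := part1 h hn hc hB hq (by omega)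
    have hB' := cnt_complete (Nat.pos_of_ne_zero hn0) (Nat.ordProj_dvd n q) B hc hB
    have h6 := cnt_rel A B ((a0.val : ℕ) : ZMod (q ^ n.factorization q))
    rw [hA', hB', ha0, hb0] at h6
    have h7 : cnt (q ^ n.factorization q) {a0} ((a0.val : ℕ) : ZMod (q ^ n.factorization q)) =
        1 := by
      rw [cnt, filter_true_of_mem (by simp)]; rfl
    rw [h7] at h6
    have h8 : cnt (q ^ n.factorization q) {b0} ((a0.val : ℕ) : ZMod (q ^ n.factorization q)) =
        1 := by omega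
    have h9 : ((b0.val : ℕ) : ZMod (q ^ n.factorization q)) = (a0.val : ℕ) := by
      by_contra hne
      rw [cnt, filter_false_of_mem (by simpa using hne)] at h8
      simp at h8
    have h10 : ((((a0.val : ℤ) - b0.val : ℤ)) : ZMod (q ^ n.factorization q)) = 0 := by
      push_cast
      rw [h9]; ring
    rw [ZMod.intCast_zmod_eq_zero_iff_dvd] at h10
    exact Int.natCast_dvd.1 h10
  have hd' : (n' : ℤ) ∣ (a0.val : ℤ) - b0.val := Int.natCast_dvd.2 hd
  obtain ⟨s, hs⟩ := hd'
  have key : ((a0.val : ℕ) : ZMod n) = ((b0.val : ℕ) : ZMod n) := by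
    rcases Int.even_or_odd s with ⟨t, ht⟩ | ⟨t, ht⟩
    · have h11 : (((a0.val : ℤ) - b0.val : ℤ) : ZMod n) = 0 := by
        rw [ZMod.intCast_zmod_eq_zero_iff_dvd, hs, ht, hn']
        exact ⟨t, by push_cast; ring⟩
      push_cast at h11
      exact sub_eq_zero.1 h11
    · exfalso
      subst hn'
      refine fin hn'1 h hn hodd hc hB ha0 hb0 ?_ hpr
      have : b0.val + n' ≡ a0.val [MOD 2 * n'] := by
        rw [Nat.modEq_iff_dvd]
        refine ⟨t, ?_⟩
        push_cast
        rw [ht] at hs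
        linear_combination hs
      exact this.symm
  have hb0B : b0 ∈ B ∧ b0 ∉ A := mem_sdiff.1 (by rw [hb0]; exact mem_singleton_self _)
  have hcase : ∀ a ∈ A, a = a0 ∨ a ∈ B := by
    intro a ha
    by_cases hab : a ∈ B
    · exact Or.inr hab
    · left
      have : a ∈ A \ B := mem_sdiff.2 ⟨ha, hab⟩
      rw [ha0] at this
      exact mem_singleton.1 this
  intro a ha b hb hab
  rcases hcase a ha with h1 | h1 <;> rcases hcase b hb with h2 | h2
  · rw [h1, h2]
  · exfalso
    rw [h1, key] at hab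
    have := hB b0 hb0B.1 b h2 hab
    exact hb0B.2 (this ▸ hb)
  · exfalso
    rw [h2, key] at hab
    have := hB a h1 b0 hb0B.1 hab
    exact hb0B.2 (this ▸ ha)
  · exact hB a h1 b h2 hab

end Pool.Agent.V11159.CR
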