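import Mathlib

open Finset Polynomial

namespace Pool.Agent.V11159.CR

/-- the number of elements of `A` which are `x` modulo `N` -/
def cnt {ω : ℕ} (N : ℕ) (A : Finset (ZMod ω)) (x : ZMod N) : ℕ :=
  (A.filter fun a => ((a.val : ℕ) : ZMod N) = x).card

/-- the polynomial of `A` -/
noncomputable def pol {ω : ℕ} (A : Finset (ZMod ω)) : ℤ[X] := ∑ a ∈ A, X ^ a.val

/-- evaluation of a coefficient -/
noncomputable def ev {M : Type} [AddCommGroup M] (z : M) : AddMonoidAlgebra ℤ M →+ ℤ where
  toFun x := x.coeff z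
  map_zero' := by simp
  map_add' x y := by simp

lemma ev_single {M : Type} [AddCommGroup M] [DecidableEq M] (z m : M) (c : ℤ) :
    ev z (AddMonoidAlgebra.single m c) = if m = z then c else 0 := by
  show (AddMonoidAlgebra.single m c).coeff z = _
  simp [Finsupp.single_apply]

lemma per {ω : ℕ} (N d : ℕ) (A : Finset (ZMod ω)) (h : (X ^ N - 1 : ℤ[X]) ∣ (X ^ d - 1) * pol A)
    (x : ZMod N) : cnt N A (x - d) = cnt N A x := by
  obtain ⟨R, hR⟩ := h
  set g : AddMonoidAlgebra ℤ (ZMod N) := AddMonoidAlgebra.single (1 : ZMod N) (1 : ℤ) with hg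
  have hpow : ∀ k : ℕ, g ^ k = AddMonoidAlgebra.single (k : ZMod N) (1 : ℤ) := by
    intro k
    rw [hg, AddMonoidAlgebra.single_pow]
    simp
  have h1 := congrArg (aeval g) hR
  simp only [map_mul, map_sub, map_pow, aeval_X, map_one] at h1
  have h2 : g ^ N - 1 = 0 := by
    rw [hpow, ZMod.natCast_self]
    exact sub_self _
  rw [h2, zero_mul, sub_mul, one_mul, sub_eq_zero] at h1
  have h3 : aeval g (pol A) = ∑ a ∈ A, AddMonoidAlgebra.single ((a.val : ℕ) : ZMod N) (1 : ℤ) := by
    rw [pol, map_sum]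
    exact sum_congr rfl fun a _ => by rw [map_pow, aeval_X, hpow]
  rw [h3, hpow, mul_sum] at h1
  have h4 := congrArg (ev x) h1
  rw [map_sum, map_sum] at h4
  simp only [AddMonoidAlgebra.single_mul_single, mul_one, ev_single] at h4
  rw [← sum_filter, ← sum_filter, sum_const, sum_const] at h4
  simp only [nsmul_eq_mul, mul_one] at h4
  have h5 : (A.filter fun a : ZMod ω => (d : ZMod N) + ((a.val : ℕ) : ZMod N) = x).card =
      cnt N A x := by exact_mod_cast h4
  rw [← h5, cnt]
  congr 1
  apply filter_congr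
  intro a _
  constructor
  · intro e; rw [e]; ring
  · intro e; rw [← e]; ring

end Pool.Agent.V11159.CR
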