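import Pool.Agent.V11159.CR.Per

open Finset Polynomial

namespace Pool.Agent.V11159.CR

lemma aeval_pol {ω N : ℕ} (A : Finset (ZMod ω)) :
    aeval (AddMonoidAlgebra.single (1 : ZMod N) (1 : ℤ)) (pol A) =
      ∑ a ∈ A, AddMonoidAlgebra.single ((a.val : ℕ) : ZMod N) (1 : ℤ) := by
  rw [pol, map_sum]
  refine sum_congr rfl fun a _ => ?_
  rw [map_pow, aeval_X, AddMonoidAlgebra.single_pow]
  simp

lemma ev_pol {ω N : ℕ} (A : Finset (ZMod ω)) (x : ZMod N) :
    ev x (aeval (AddMonoidAlgebra.single (1 : ZMod N) (1 : ℤ)) (pol A)) = cnt N A x := by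
  rw [aeval_pol, map_sum]
  simp only [ev_single]
  rw [← sum_filter, sum_const, cnt]
  simp

lemma per2 {ω : ℕ} {q b N : ℕ} (hq : q.Prime) (A : Finset (ZMod ω))
    (h : cyclotomic (q ^ (b + 1)) ℤ ∣ pol A) (hN : N ∣ q ^ b) (x : ZMod N) :
    q ∣ cnt N A x := by
  obtain ⟨R, hR⟩ := h
  rw [← Int.natCast_dvd_natCast, ← ev_pol, hR, map_mul, cyclotomic_prime_pow_eq_geom_sum hq]
  have hpow : (AddMonoidAlgebra.single (1 : ZMod N) (1 : ℤ)) ^ (q ^ b) = 1 := by
    rw [AddMonoidAlgebra.single_pow]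
    have : (q ^ b) • (1 : ZMod N) = 0 := by
      rw [nsmul_eq_mul, mul_one]
      exact (ZMod.natCast_eq_zero_iff _ _).2 hN
    rw [this]; simp; rfl
  simp only [map_sum, map_pow, aeval_X, hpow, one_pow, sum_const, card_range]
  rw [smul_mul_assoc, one_mul, map_nsmul, nsmul_eq_mul]
  exact dvd_mul_right _ _

/-- every element of `ZMod ω` is in exactly one way a sum -/
def Tl {ω : ℕ} (A C : Finset (ZMod ω)) : Prop :=
  ∀ g : ZMod ω, ∃! p : ZMod ω × ZMod ω, p.1 ∈ A ∧ p.2 ∈ C ∧ p.1 + p.2 = g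

lemma tl_bij {ω : ℕ} {A C : Finset (ZMod ω)} (h : Tl A C) :
    Set.BijOn (fun p : ZMod ω × ZMod ω => p.1 + p.2) ((A ×ˢ C : Finset _) : Set _) Set.univ := by
  refine ⟨fun _ _ => Set.mem_univ _, ?_, ?_⟩
  · intro p hp p' hp' e
    have hp1 := mem_product.1 (mem_coe.1 hp)
    have hp2 := mem_product.1 (mem_coe.1 hp')
    exact (h (p.1 + p.2)).unique ⟨hp1.1, hp1.2, rfl⟩ ⟨hp2.1, hp2.2, e.symm⟩
  · intro g _
    obtain ⟨p, ⟨h1, h2, h3⟩, -⟩ := h g
    exact ⟨p, mem_coe.2 (mem_product.2 ⟨h1, h2⟩), h3⟩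

lemma tl_card {ω : ℕ} [NeZero ω] {A C : Finset (ZMod ω)} (h : Tl A C) :
    A.card * C.card = ω := by
  have hb := tl_bij h
  have : (A ×ˢ C).card = (univ : Finset (ZMod ω)).card := by
    refine card_bij (fun p _ => p.1 + p.2) (fun _ _ => mem_univ _) ?_ ?_
    · intro a ha b hb' e
      exact hb.2.1 (mem_coe.2 ha) (mem_coe.2 hb') e
    · intro g _
      obtain ⟨p, hp, e⟩ := hb.2.2 (Set.mem_univ g)
      exact ⟨p, mem_coe.1 hp, e⟩
  rw [← card_product, this, card_univ, ZMod.card]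

lemma cyc_or {ω : ℕ} [NeZero ω] {A C : Finset (ZMod ω)} (h : Tl A C) {N : ℕ} (hN : 1 < N)
    (hNω : N ∣ ω) : cyclotomic N ℤ ∣ pol A ∨ cyclotomic N ℤ ∣ pol C := by
  have hN0 : 0 < N := by omega
  obtain ⟨ζ, hζ⟩ : ∃ ζ : ℂ, IsPrimitiveRoot ζ N := ⟨_, Complex.isPrimitiveRoot_exp N hN0.ne'⟩
  have hω1 : ζ ^ ω = 1 := (hζ.pow_eq_one_iff_dvd _).2 hNω
  have hmod : ∀ k : ℕ, ζ ^ (k % ω) = ζ ^ k := by
    intro k
    conv_rhs => rw [← Nat.mod_add_div k ω, pow_add, pow_mul, hω1, one_pow, mul_one]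
  have hadd : ∀ a c : ZMod ω, ζ ^ (a + c).val = ζ ^ a.val * ζ ^ c.val := by
    intro a c
    rw [ZMod.val_add, hmod, pow_add]
  have hS : ∑ g : ZMod ω, ζ ^ g.val = 0 := by
    have h1 : ∑ g : ZMod ω, ζ ^ (g + 1).val = ∑ g : ZMod ω, ζ ^ g.val :=
      Equiv.sum_comp (Equiv.addRight (1 : ZMod ω)) fun g => ζ ^ g.val
    have hω2 : 1 < ω := lt_of_lt_of_le hN (Nat.le_of_dvd (NeZero.pos ω) hNω)
    haveI : Fact (1 < ω) := ⟨hω2⟩
    simp only [hadd, ZMod.val_one, pow_one] at h1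
    rw [← sum_mul] at h1
    have h2 : (∑ g : ZMod ω, ζ ^ g.val) * (ζ - 1) = 0 := by rw [mul_sub, h1]; ring
    rcases mul_eq_zero.1 h2 with h3 | h3
    · exact h3
    · exact absurd (sub_eq_zero.1 h3) (hζ.ne_one hN)
  have hprod : aeval ζ (pol A) * aeval ζ (pol C) = 0 := by
    rw [← hS]
    simp only [pol, map_sum, map_pow, aeval_X]
    rw [sum_mul_sum, ← sum_product']
    have hb := tl_bij h
    refine sum_bij (fun p _ => p.1 + p.2) (fun _ _ => mem_univ _) ?_ ?_ ?_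
    · intro a ha b hb' e
      exact hb.2.1 (mem_coe.2 ha) (mem_coe.2 hb') e
    · intro g _
      obtain ⟨p, hp, e⟩ := hb.2.2 (Set.mem_univ g)
      exact ⟨p, mem_coe.1 hp, e⟩
    · intro p _
      exact (hadd _ _).symm
  rw [cyclotomic_eq_minpoly hζ hN0]
  rcases mul_eq_zero.1 hprod with h1 | h1
  · exact Or.inl (minpoly.isIntegrallyClosed_dvd (hζ.isIntegral hN0) h1)
  · exact Or.inr (minpoly.isIntegrallyClosed_dvd (hζ.isIntegral hN0) h1)

lemma prod_dvd {q : ℕ} (hq : q.Prime) (S : Finset ℕ) (P : ℤ[X])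
    (h : ∀ b ∈ S, cyclotomic (q ^ (b + 1)) ℤ ∣ P) :
    ∏ b ∈ S, cyclotomic (q ^ (b + 1)) ℤ ∣ P := by
  refine Finset.prod_dvd_of_isRelPrime ?_ h
  intro a _ b _ hab
  have hpa : 0 < q ^ (a + 1) := pow_pos hq.pos _
  have hpb : 0 < q ^ (b + 1) := pow_pos hq.pos _
  show IsRelPrime (cyclotomic (q ^ (a + 1)) ℤ) (cyclotomic (q ^ (b + 1)) ℤ)
  rw [(cyclotomic.irreducible hpa).isRelPrime_iff_not_dvd]
  intro hd
  have h1 := (cyclotomic.irreducible hpa).associated_of_dvd (cyclotomic.irreducible hpb) hd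
  have h2 := eq_of_monic_of_associated (cyclotomic.monic _ ℤ) (cyclotomic.monic _ ℤ) h1
  have h3 : q ^ (a + 1) = q ^ (b + 1) := cyclotomic_injective h2
  exact hab (by have := Nat.pow_right_injective hq.two_le h3; omega)

lemma pow_card_dvd {ω : ℕ} {q : ℕ} (hq : q.Prime) (S : Finset ℕ) (A : Finset (ZMod ω))
    (h : ∀ b ∈ S, cyclotomic (q ^ (b + 1)) ℤ ∣ pol A) : q ^ S.card ∣ A.card := by
  haveI : Fact q.Prime := ⟨hq⟩
  obtain ⟨R, hR⟩ := prod_dvd hq S _ h
  have h1 := congrArg (eval (1 : ℤ)) hR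
  rw [eval_mul, eval_prod] at h1
  simp only [eval_one_cyclotomic_prime_pow, prod_const] at h1
  have h2 : eval (1 : ℤ) (pol A) = A.card := by
    rw [pol, eval_finsetSum]; simp
  rw [h2] at h1
  rw [← Int.natCast_dvd_natCast, h1]
  push_cast
  exact dvd_mul_right _ _

lemma geom {q : ℕ} (hq : q.Prime) (α : ℕ) :
    (X - 1 : ℤ[X]) * ∏ b ∈ range α, cyclotomic (q ^ (b + 1)) ℤ = X ^ (q ^ α) - 1 := by
  haveI : Fact q.Prime := ⟨hq⟩
  induction α with
  | zero => simp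
  | succ k ih =>
    rw [prod_range_succ, ← mul_assoc, ih, mul_comm, cyclotomic_prime_pow_mul_X_pow_sub_one]

/-- the alternative for a prime `q` -/
lemma alt {ω : ℕ} [NeZero ω] {A C : Finset (ZMod ω)} (h : Tl A C) {q : ℕ} (hq : q.Prime) :
    (∀ x : ZMod (q ^ A.card.factorization q),
      cnt (q ^ A.card.factorization q) A (x - 1) = cnt (q ^ A.card.factorization q) A x) ∨
    (∀ x : ZMod (q ^ A.card.factorization q), q ∣ cnt (q ^ A.card.factorization q) A x) := by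
  classical
  have hcard := tl_card h
  have hA0 : A.card ≠ 0 := fun e => by rw [e, zero_mul] at hcard; exact NeZero.ne ω hcard.symm
  have hC0 : C.card ≠ 0 := fun e => by rw [e, mul_zero] at hcard; exact NeZero.ne ω hcard.symm
  set α := A.card.factorization q with hα
  set β := C.card.factorization q with hβ
  have hv : ω.factorization q = α + β := by
    rw [← hcard, Nat.factorization_mul hA0 hC0]; rfl
  have hdv : q ^ (α + β) ∣ ω := by rw [← hv]; exact Nat.ordProj_dvd ω q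
  set SA := (range (α + β)).filter fun b => cyclotomic (q ^ (b + 1)) ℤ ∣ pol A with hSA
  set SC := (range (α + β)).filter fun b => cyclotomic (q ^ (b + 1)) ℤ ∣ pol C with hSC
  have h1 : SA.card ≤ α := by
    have := pow_card_dvd hq SA A (fun b hb => (mem_filter.1 hb).2)
    exact (hq.pow_dvd_iff_le_factorization hA0).1 this
  have h2 : SC.card ≤ β := by
    have := pow_card_dvd hq SC C (fun b hb => (mem_filter.1 hb).2)
    exact (hq.pow_dvd_iff_le_factorization hC0).1 this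
  have h3 : range (α + β) ⊆ SA ∪ SC := by
    intro b hb
    have hb' := mem_range.1 hb
    rcases cyc_or h (N := q ^ (b + 1)) (Nat.one_lt_pow (by omega) hq.one_lt)
      ((pow_dvd_pow q (by omega)).trans hdv) with h4 | h4
    · exact mem_union_left _ (mem_filter.2 ⟨hb, h4⟩)
    · exact mem_union_right _ (mem_filter.2 ⟨hb, h4⟩)
  have h4 : α + β ≤ SA.card + SC.card := by
    have := (card_le_card h3).trans (card_union_le _ _)
    rwa [card_range] at this
  by_cases hsub : ∃ b ∈ SA, α ≤ b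
  · right
    obtain ⟨b, hb, hb2⟩ := hsub
    intro x
    exact per2 hq A (mem_filter.1 hb).2 (pow_dvd_pow q hb2) x
  · left
    push Not at hsub
    have h5 : SA ⊆ range α := fun b hb => mem_range.2 (hsub b hb)
    have h6 : SA = range α := eq_of_subset_of_card_le h5 (by rw [card_range]; omega)
    have h7 : ∏ b ∈ range α, cyclotomic (q ^ (b + 1)) ℤ ∣ pol A :=
      prod_dvd hq _ _ (fun b hb => (mem_filter.1 (h6 ▸ hb : b ∈ SA)).2)
    intro x
    have h8 := per (q ^ α) 1 A (by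
      rw [← geom hq α, pow_one]
      exact mul_dvd_mul_left _ h7) x
    rwa [Nat.cast_one] at h8

end Pool.Agent.V11159.CR
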